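import Pool.Agent.Q156.AW.A8

/-!
Primes `|F(m) + k|`, `F` of degree at least three (for instance `m³ + k`), `m` in an arbitrary set of
integers, or weighted with arbitrary bounded weights: for almost all `k`, in all windows, only the
primes up to a power of `log x` matter.

Method: the second moment over all `k` of `∑ w(m) f(F(m) + k)`, `f` the primes minus their sieve
model, is at most a square root of the number of pairs of arguments times a square root of the sum
of `R(F(m) - F(m'))²`, `R` the autocorrelation of `f` (Cauchy and Schwarz). The squares `R²` are sums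
of autocorrelations of the functions `f(v) f(v + l)`, so the inverse theorem for Weyl sums of
`Pool/Agent/TH204/WR` applies to them.
-/

set_option autoImplicit false

namespace Pool.Agent.Results.MP_4d57ea_nt.ArbitraryArguments

open Finset
open scoped Polynomial

/-- the sum of `w m` over the `m` in `(u, v]` for which `|F(m) + k|` is a prime -/
noncomputable def primeSum (F : ℤ[X]) (k : ℤ) (w : ℤ → ℝ) (u v : ℤ) : ℝ :=
  ∑ m ∈ (Ioc u v).filter (fun m => (F.eval m + k).natAbs.Prime), w m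

open Classical in
/-- the sum of `w m / log |F(m) + k|` over the `m` in `(u, v]` for which `F(m) + k` has no prime
factor `p ≤ z`, divided by the product of `1 - 1 / p` over the primes `p ≤ z` -/
noncomputable def sieveSum (F : ℤ[X]) (k : ℤ) (z : ℕ) (w : ℤ → ℝ) (u v : ℤ) : ℝ :=
  (∏ p ∈ (Icc 1 z).filter Nat.Prime, (1 - 1 / (p : ℝ)))⁻¹ *
    ∑ m ∈ (Ioc u v).filter (fun m => ∀ p : ℕ, p.Prime → p ≤ z → ¬ (p : ℤ) ∣ F.eval m + k),
      w m / Real.log |((F.eval m + k : ℤ) : ℝ)|

/-- Let `F` be an integer polynomial of degree `d ≥ 3`, for instance `m³`. For all `U`, `C`, `K` there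
are `B`, `E₀` such that for all `E ≥ E₀`, all large `x` and all weights `w i m` in `[-1, 1]` (for
instance the indicator functions of arbitrary sets of integers) all integers `k` with `|k| ≤ x`
but at most `x / (log x)^U` have the following property. For all `i ≤ (log x)^K`, both signs `s`
and all windows `(u, v]` of length at least `(log x)^B` on which `s (F(m) + k)` lies between `2`
and `(v - u) x^(1 - 1/d) (log x)^C`, the weighted number of the `m` in the window with `|F(m) + k|`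
prime differs from its sieve prediction with the primes `p ≤ z = (log x)^E` by at most
`(v - u) / (log x)^U`. -/
theorem result (F : ℤ[X]) (hF : 3 ≤ F.natDegree) (U C K : ℕ) :
    ∃ B E₀ : ℕ, ∀ E : ℕ, E₀ ≤ E → ∃ X₀ : ℕ, ∀ x : ℕ, X₀ ≤ x →
    ∀ w : ℕ → ℤ → ℝ, (∀ i m, |w i m| ≤ 1) →
    ∃ Bad ⊆ Icc (-(x : ℤ)) x, (#Bad : ℝ) ≤ x / Real.log x ^ U ∧
    ∀ k ∈ Icc (-(x : ℤ)) x, k ∉ Bad → ∀ i : ℕ, (i : ℝ) ≤ Real.log x ^ K →
    ∀ s : ℤ, (s = 1 ∨ s = -1) → ∀ u v : ℤ, Real.log x ^ B ≤ (v : ℝ) - u →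
      (∀ m ∈ Ioc u v, 2 ≤ s * (F.eval m + k) ∧ ((s * (F.eval m + k) : ℤ) : ℝ) ≤
        ((v : ℝ) - u) * ((x : ℝ) ^ (1 - 1 / (F.natDegree : ℝ)) * Real.log x ^ C)) →
      |primeSum F k (w i) u v - sieveSum F k ⌊Real.log x ^ E⌋₊ (w i) u v| ≤
        ((v : ℝ) - u) / Real.log x ^ U := by
  obtain ⟨κ, hκ⟩ : ∃ κ, F.natDegree = κ + 1 := ⟨F.natDegree - 1, by omega⟩
  obtain ⟨B, E₀, h⟩ := Pool.Agent.Q156.AW.both_signs κ (by omega) F hκ U C K
  refine ⟨B, E₀, fun E hE => ?_⟩
  obtain ⟨X₀, h⟩ := h E hE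
  refine ⟨X₀, fun x hx w hw => ?_⟩
  obtain ⟨Bad, h1, h2, h3⟩ := h x hx w hw
  refine ⟨Bad, h1, h2, fun k hk hkB i hi s hs u v huv hv => ?_⟩
  have hrt : Pool.Agent.TH204.WR.rt κ x ^ κ = (x : ℝ) ^ (1 - 1 / (F.natDegree : ℝ)) := by
    unfold Pool.Agent.TH204.WR.rt
    rw [← Real.rpow_natCast, ← Real.rpow_mul (Nat.cast_nonneg _), hκ]
    congr 1
    push_cast
    have : (κ : ℝ) + 1 ≠ 0 := by positivity
    field_simp
    ring
  exact h3 k hk hkB i hi s hs u v huv (by rw [hrt]; exact hv)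

end Pool.Agent.Results.MP_4d57ea_nt.ArbitraryArguments
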