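import Mathlib
import Pool.Agent.Q263.PK.Deg

/-!
# The values `m ^ 3 + k` at the integers with restricted digits, for all `k`

Fix a base `b ≥ 2`. For `K ≥ 1` choose for every position `i < K` a set `D i` of digits, in any way,
such that two digits in `D i` have a difference without prime factors outside `b`, for example two
consecutive digits. Let `S` be the set of the integers `0 ≤ m < b ^ K` whose `i`-th digit is in
`D i` for every `i`; it may have only `2 ^ K` elements. For an integer `k` let `S(y)` be the set of the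
`m ∈ S` such that `m ^ 3 + k` has no prime factor `≤ y`, and `ρ(p)` the number of the `m` modulo `p` such
that `p ∣ m ^ 3 + k`.

(1) For every `ε > 0` there are `L` and `K₀`, which depend on `b` and `ε` only, such that for all
`K ≥ K₀`, all choices of the sets of digits, ALL integers `k` (of any size) and all `y ≥ b` with
`y ^ L ≤ b ^ K` the number of the elements of `S(y)` is

  `(1 + θ) · g · ∏_{i ≥ 1} |D i| · ∏_{p ≤ y, p ∤ b} (1 - ρ(p) / p)`, `|θ| ≤ ε`,

where `g` is the number of the last digits `d ∈ D 0` for which `d ^ 3 + k` is coprime to `b`.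

(2) There are `r`, `K₀` and `δ > 0`, which depend on `b` only, such that for all `C`, all `K ≥ K₀`, all
sets of digits and all `k` with `|k| ≤ b ^ (C K)` and `g ≥ 1` at least `δ |S| / K ^ 3` of the `m ∈ S` are
such that `m ^ 3 + k` is not zero and has at most `r (C + 4)` prime factors.

(3) Let `k` be an integer which is not a cube. For all `Λ` and `ε > 0` there are `L`, `y₀`, `K₀` such
that for all `K ≥ K₀`, all sets of digits, all `y ≥ y₀` with `y ^ L ≤ b ^ K`, all `T` with
`x = T ∏_{p ≤ y} (1 - ρ(p) / p) ≤ Λ` and all finite sets `A` the proportion of the `m ∈ S(y)` for which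
the number of the `t` in `(m, m + T]` such that `t ^ 3 + k` has no prime factor `≤ y` belongs to `A`
differs from `∑_{j ∈ A} exp(-x) x ^ j / j!` by at most `ε`. So the distance to the next such `t` has
the exponential distribution.
-/

set_option autoImplicit false

namespace Pool.Agent.Results.MP_4d57ea_nt.EveryKDigits

open Finset Polynomial

/-- The integers `0 ≤ m < b ^ K` whose `i`-th digit in base `b` belongs to `D i`, for all `i < K`. -/
def Restricted (b K : ℕ) (D : Fin K → Finset ℕ) : Finset ℕ :=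
  (Finset.range (b ^ K)).filter (fun n => ∀ i : Fin K, n / b ^ (i : ℕ) % b ∈ D i)

/-- Each `D i` is a set of digits, and it has two digits `c < c'` such that every prime factor of
`c' - c` divides `b`. -/
def DigitSets (b K : ℕ) (D : Fin K → Finset ℕ) : Prop :=
  ∀ i, (∀ d ∈ D i, d < b) ∧ ∃ c ∈ D i, ∃ c' ∈ D i, c < c' ∧
    ∀ p : ℕ, p.Prime → p ∣ c' - c → p ∣ b

/-- The value `m ^ 3 + k`. -/
def value (k : ℤ) (m : ℕ) : ℤ := (m : ℤ) ^ 3 + k

/-- `m ^ 3 + k` has no prime factor `≤ y`. -/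
def Rough (k : ℤ) (y m : ℕ) : Prop := ∀ p : ℕ, p.Prime → p ≤ y → ¬ (p : ℤ) ∣ value k m

open Classical in
/-- The set `S(y)`. -/
noncomputable def Start (b K : ℕ) (D : Fin K → Finset ℕ) (k : ℤ) (y : ℕ) : Finset ℕ :=
  (Restricted b K D).filter (fun n => Rough k y n)

open Classical in
/-- The number of the `t` in `(m, m + T]` such that `t ^ 3 + k` has no prime factor `≤ y`. -/
noncomputable def next (k : ℤ) (y T m : ℕ) : ℕ :=
  ((Finset.Ioc m (m + T)).filter (fun t => Rough k y t)).card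

open Classical in
/-- The number of the residues `m` modulo `p` such that `p ∣ m ^ 3 + k`. -/
noncomputable def rho (k : ℤ) (p : ℕ) : ℕ := ((range p).filter (fun m => (p : ℤ) ∣ value k m)).card

/-- The density of the `t` such that `t ^ 3 + k` has no prime factor `≤ y`. -/
noncomputable def density (k : ℤ) (y : ℕ) : ℝ :=
  ∏ p ∈ (Finset.Icc 1 y).filter Nat.Prime, (1 - (rho k p : ℝ) / (p : ℝ))

/-- The number of the last digits `d` such that `d ^ 3 + k` is coprime to `b`. -/
def lastDigits (b K : ℕ) (D : Fin K → Finset ℕ) (k : ℤ) : ℕ :=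
  (((Finset.univ : Finset (Fin K)).filter (fun i : Fin K => (i : ℕ) = 0)).biUnion
    (fun i => (D i).filter (fun d : ℕ => Int.gcd (value k d) b = 1))).card

/-- The product of the numbers of the elements of `D i` over the positions `i ≥ 1`. -/
def otherDigits (K : ℕ) (D : Fin K → Finset ℕ) : ℕ :=
  ∏ i ∈ (Finset.univ : Finset (Fin K)).filter (fun i : Fin K => (i : ℕ) ≠ 0), (D i).card

/-- The main term. -/
noncomputable def mainTerm (b K : ℕ) (D : Fin K → Finset ℕ) (k : ℤ) (y : ℕ) : ℝ :=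
  (lastDigits b K D k : ℝ) * otherDigits K D *
    ∏ p ∈ (Finset.Icc 1 y).filter (fun p => p.Prime ∧ ¬ p ∣ b), (1 - (rho k p : ℝ) / (p : ℝ))

/-- The measure of `A` for the Poisson distribution with the mean `x`. -/
noncomputable def poisson (x : ℝ) (A : Finset ℕ) : ℝ :=
  ∑ j ∈ A, Real.exp (-x) * x ^ j / (j.factorial : ℝ)

open Pool.Agent.W123.RU.Poly (Sys Q)
open Pool.Agent.H373R2.T7 Pool.Agent.W123.RP Pool.Agent.W123.RU Pool.Agent.TH464.PO
open Pool.Agent.Q263.PK

/-- the polynomial -/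
noncomputable def F (k : ℤ) : ℤ[X] := X ^ 3 + C k

lemma F_monic (k : ℤ) : (F k).Monic := monic_X_pow_add_C k (by norm_num)

lemma F_deg (k : ℤ) : (F k).natDegree = 3 := natDegree_X_pow_add_C

lemma F_eval (k : ℤ) (m : ℕ) : (F k).eval (m : ℤ) = value k m := by
  unfold F value
  simp

lemma value_eq (k : ℤ) : (fun m : ℕ => (F k).eval (m : ℤ)) = value k := by
  funext m
  exact F_eval k m

lemma per (k : ℤ) : Gen.PerG (value k) := by
  rw [← value_eq]
  exact Gen.perG_poly _

lemma rho_le (k : ℤ) (p : ℕ) (hp : p.Prime) : Gen.rho (value k) p ≤ 3 := by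
  have h := Gen.rho_monic_le (F k) (F_monic k) p hp
  rw [value_eq, F_deg] at h
  exact h

lemma two_odd (k : ℤ) (p : ℕ) (hp : p.Prime) : ∃ m : ℕ, m < p ∧ ¬ (p : ℤ) ∣ value k m := by
  unfold value
  by_contra hcon
  push Not at hcon
  have h0 := hcon 0 hp.pos
  have h1 := hcon 1 hp.one_lt
  have h2 : (p : ℤ) ∣ 1 := by
    have := dvd_sub h1 h0
    have e : (((1 : ℕ) : ℤ) ^ 3 + k) - (((0 : ℕ) : ℤ) ^ 3 + k) = 1 := by norm_num
    rwa [e] at this
  have h3 : p ∣ 1 := by exact_mod_cast h2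
  exact hp.one_lt.ne' (Nat.dvd_one.1 h3)

open Classical in
lemma rho_lt (k : ℤ) (p : ℕ) (hp : p.Prime) : Gen.rho (value k) p < p := by
  obtain ⟨m, hm, hm2⟩ := two_odd k p hp
  have h1 : (range p).filter (fun r => (p : ℤ) ∣ value k r) ⊂ range p := by
    rw [Finset.ssubset_iff_of_subset (filter_subset _ _)]
    refine ⟨m, mem_range.2 hm, fun h => hm2 (mem_filter.1 h).2⟩
  have h2 := card_lt_card h1
  rw [card_range] at h2
  exact h2

lemma F_irr (k : ℤ) (hk : ∀ a : ℤ, a ^ 3 ≠ k) : Irreducible (F k) := by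
  apply (F_monic k).irreducible_of_irreducible_map (Int.castRingHom ℚ)
  have hmon : ((F k).map (Int.castRingHom ℚ)).Monic := (F_monic k).map _
  have hdeg : ((F k).map (Int.castRingHom ℚ)).natDegree = 3 := by
    rw [(F_monic k).natDegree_map, F_deg]
  apply Polynomial.irreducible_of_degree_le_three_of_not_isRoot
  · rw [hdeg]
    decide
  · intro x hx
    have h1 : aeval x (F k) = 0 := by
      rw [IsRoot.def, eval_map] at hx
      rw [aeval_def]
      exact hx
    have h0 : x ^ 3 + (k : ℚ) = 0 := by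
      rw [IsRoot.def] at hx
      unfold F at hx
      rw [Polynomial.map_add, Polynomial.map_pow, map_X, Polynomial.map_C, eval_add, eval_pow,
        eval_X, eval_C] at hx
      exact hx
    obtain ⟨a, ha⟩ := isInteger_of_is_root_of_monic (F_monic k) h1
    have h2 : (algebraMap ℤ ℚ) a = (a : ℚ) := by simp
    rw [h2] at ha
    rw [← ha] at h0
    have h3 : a ^ 3 + k = 0 := by exact_mod_cast h0
    apply hk (-a)
    linear_combination -h3

lemma F_sys (k : ℤ) (hk : ∀ a : ℤ, a ^ 3 ≠ k) : Sys (fun _ : Fin 1 => F k) := by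
  refine ⟨fun _ => F_irr k hk, fun _ => by rw [F_deg]; norm_num, fun _ => by
    rw [(F_monic k).leadingCoeff]; norm_num, fun i j _ => Subsingleton.elim i j, ?_⟩
  intro p hp
  obtain ⟨m, _, hm⟩ := two_odd k p hp
  refine ⟨m, fun _ => ?_⟩
  rwa [F_eval]

lemma Q_iff (k : ℤ) (p m : ℕ) : Q (fun _ : Fin 1 => F k) p m ↔ (p : ℤ) ∣ value k m := by
  unfold Q
  constructor
  · rintro ⟨_, h⟩
    rwa [F_eval] at h
  · intro h
    refine ⟨0, ?_⟩
    rwa [F_eval]

open Classical in
theorem result : ∀ b : ℕ, 2 ≤ b →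
    (∀ ε : ℝ, 0 < ε → ∃ L K₀ : ℕ, 1 ≤ L ∧ ∀ K : ℕ, K₀ ≤ K →
      ∀ D : Fin K → Finset ℕ, DigitSets b K D → ∀ k : ℤ, ∀ y : ℕ, b ≤ y → y ^ L ≤ b ^ K →
      |((Start b K D k y).card : ℝ) - mainTerm b K D k y| ≤ ε * mainTerm b K D k y) ∧
    (∃ (r K₀ : ℕ) (δ : ℝ), 0 < δ ∧ ∀ C : ℕ, ∀ K : ℕ, K₀ ≤ K →
      ∀ D : Fin K → Finset ℕ, DigitSets b K D → ∀ k : ℤ, k.natAbs ≤ b ^ (C * K) →
      1 ≤ lastDigits b K D k →
      δ * (Restricted b K D).card / (K : ℝ) ^ 3 ≤
        (((Restricted b K D).filter (fun m : ℕ => value k m ≠ 0 ∧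
          (value k m).natAbs.primeFactorsList.length ≤ r * (C + 4))).card : ℝ)) ∧
    (∀ k : ℤ, (∀ a : ℤ, a ^ 3 ≠ k) → ∀ Λ ε : ℝ, 0 < ε →
      ∃ L y₀ K₀ : ℕ, 1 ≤ L ∧ ∀ K : ℕ, K₀ ≤ K → ∀ D : Fin K → Finset ℕ, DigitSets b K D →
      ∀ y : ℕ, y₀ ≤ y → y ^ L ≤ b ^ K → ∀ T : ℕ, T * density k y ≤ Λ → ∀ A : Finset ℕ,
        |(((Start b K D k y).filter (fun m => next k y T m ∈ A)).card : ℝ) -
          (Start b K D k y).card * poisson (T * density k y) A| ≤ ε * (Start b K D k y).card) := by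
  intro b hb
  refine ⟨?_, ?_, ?_⟩
  · intro ε hε
    obtain ⟨L, K₀, hL, h⟩ := Gen.count hb 3 ε hε
    exact ⟨L, K₀, hL, fun K hK D hD k y hby hy =>
      h K hK D hD (value k) (per k) (rho_le k) y hby hy⟩
  · obtain ⟨r, K₀, δ, hδ, h⟩ := Gen.almost hb 3
    refine ⟨r, K₀ + 1, δ, hδ, fun C K hK D hD k hk hg => ?_⟩
    exact h (C + 4) K (by omega) D hD (value k) (per k) (rho_le k) (rho_lt k) (fun m hm => by
      unfold value
      have h1 : ((m : ℤ) ^ 3 + k).natAbs ≤ m ^ 3 + k.natAbs := by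
        refine (Int.natAbs_add_le _ _).trans ?_
        rw [Int.natAbs_pow, Int.natAbs_natCast]
      refine h1.trans ?_
      have h2 : m ^ 3 ≤ b ^ (3 * K) := by
        calc m ^ 3 ≤ (b ^ K) ^ 3 := Nat.pow_le_pow_left hm.le 3
          _ = b ^ (3 * K) := by rw [← pow_mul, mul_comm]
      have h3 : 1 ≤ b ^ (3 * K) := Nat.one_le_pow _ _ (by omega)
      have h4 : 1 ≤ b ^ (C * K) := Nat.one_le_pow _ _ (by omega)
      have h5 : 2 ≤ b ^ K := hb.trans (Nat.le_self_pow (by omega) b)
      have h6 : b ^ (3 * K) + b ^ (C * K) ≤ 2 * (b ^ (3 * K) * b ^ (C * K)) := by nlinarith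
      calc m ^ 3 + k.natAbs ≤ b ^ (3 * K) + b ^ (C * K) := add_le_add h2 hk
        _ ≤ 2 * (b ^ (3 * K) * b ^ (C * K)) := h6
        _ ≤ b ^ K * (b ^ (3 * K) * b ^ (C * K)) := Nat.mul_le_mul_right _ h5
        _ = b ^ ((C + 4) * K) := by
          rw [← pow_add, ← pow_add]
          congr 1
          ring) hg
  · intro k hk Λ ε hε
    have hNoTr := noTr_single (F k) (by rw [F_deg]; norm_num)
    obtain ⟨L, y₀, K₀, hL, h⟩ := Gen.law hb (fun _ : Fin 1 => F k) (F_sys k hk)
      (fun _ : Fin 1 => F k) (F_sys k hk) hNoTr (fun i j t ht => hNoTr i j t ht) (value k) (value k)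
      (fun p m _ => Q_iff k p m) (fun p m _ => Q_iff k p m) Λ ε hε
    exact ⟨L, y₀, K₀, hL, fun K hK D hD y hy hyL => (h K hK D hD y hy hyL).2⟩

end Pool.Agent.Results.MP_4d57ea_nt.EveryKDigits
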