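import Pool.Agent.Q117.CB.Fam

/-!
# Narrow progressions of `m` with `m ^ 3 + k` almost prime, for all but few `k`, in all short intervals

For all integers `k` with `|k| ≤ X ^ 3`, with at most `X ^ (4 - 2 δ + ε)` exceptions, EVERY interval of length `≥ X ^ δ` in `[1, X]`
contains at least the expected number of the `m` for which `m ^ 3 + k` has at most three prime factors, all greater than `X ^ (3/4)`;
all dense subsets of the set of these `m` contain progressions of any length with difference at most `log ^ D X`; in every colouring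
there are such progressions of one colour with all `|m ^ 3 + k|` prime, or all products of exactly two, or all of exactly three primes.

Libraries (starting files): `Y882.PY.engine` (almost primes for all but few constant terms), `Y843.HS.fin` (progressions in dense
subsets of sifted sets).
-/

set_option autoImplicit false

namespace Pool.Agent.Results.MP_4d57ea_nt.NarrowProgressions

open Finset Filter
open Pool.Agent.Q117.CB
open Pool.Agent.Q253.Cov (ap_dense pigeon)
open Pool.Agent.Q253.Thin (VZ_low VZ_nonneg VZ_le_one)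
open Pool.Agent.Y843.HS (Pr VV VV_split)

/-- the number of the classes `n` modulo `p` with `p ∣ n ^ 3 + k` -/
def rho (k : ℤ) (p : ℕ) : ℕ := ((range p).filter (fun n : ℕ => (p : ℤ) ∣ (n : ℤ) ^ 3 + k)).card

/-- the product of the `1 - rho k p / p` over the primes `p ≤ X` -/
noncomputable def dens (k : ℤ) (X : ℕ) : ℝ := ∏ p ∈ (Icc 1 X).filter Nat.Prime, (1 - (rho k p : ℝ) / p)

/-- the number of the prime factors of `|m ^ 3 + k|`, with multiplicity -/
def bigOmega (k : ℤ) (m : ℕ) : ℕ := ((m : ℤ) ^ 3 + k).natAbs.primeFactorsList.length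

open Classical in
/-- the `m` of `(A, A + H]` with `|m ^ 3 + k| ≥ 2` having at most three prime factors, all greater than `X ^ (3/4)` -/
noncomputable def good (k : ℤ) (X A H : ℕ) : Finset ℕ :=
  (Ioc A (A + H)).filter (fun m : ℕ => 2 ≤ ((m : ℤ) ^ 3 + k).natAbs ∧ bigOmega k m ≤ 3 ∧
    ∀ q : ℕ, q.Prime → (q : ℤ) ∣ (m : ℤ) ^ 3 + k → (X : ℝ) ^ (3 / 4 : ℝ) < q)

lemma rho_eq (k : ℤ) (q : ℕ) : rho k q = (Zk k q).card := by
  unfold rho Zk cv
  congr 1
  apply filter_congr
  intro n _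
  exact Int.natCast_dvd

lemma dens_eq (k : ℤ) (X : ℕ) : dens k X = VV (Zk k) 0 X := by
  unfold dens VV Pr
  have h : (Icc 1 X).filter Nat.Prime = (Ioc 0 X).filter Nat.Prime := by
    ext p
    simp only [mem_filter, mem_Icc, mem_Ioc]
    constructor
    · rintro ⟨⟨h1, h2⟩, h3⟩
      exact ⟨⟨by omega, h2⟩, h3⟩
    · rintro ⟨⟨h1, h2⟩, h3⟩
      exact ⟨⟨by omega, h2⟩, h3⟩
  rw [h]
  apply prod_congr rfl
  intro p _
  rw [rho_eq]

lemma good_eq (k : ℤ) (X A H : ℕ) : good k X A H = Gd k X A H := by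
  classical
  ext n
  unfold good Gd
  rw [mem_filter, mem_filter]
  refine and_congr_right fun _ => and_congr_right fun _ => and_congr_right fun _ => ?_
  refine forall_congr' fun q => forall_congr' fun _ => ?_
  rw [Int.natCast_dvd]
  rfl

/-- **Narrow progressions of `m` with `m ^ 3 + k` almost prime.** Let `L, C ≥ 1`, `1/2 < δ ≤ 1`, `ε > 0`, `θ > 0`. There are `c > 0`,
`D` and `X₀` such that for all `X ≥ X₀` and for all integers `|k| ≤ X ^ 3` with at most `X ^ (4 - 2 δ + ε)` exceptions the following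
holds for EVERY interval `(A, A + H]` in `[1, X]` with `H ≥ X ^ δ`:

(1) at least `c H dens k X` of the `m` in the interval are such that `m ^ 3 + k` has at most three prime factors, all `> X ^ (3/4)`;

(2) every subset of this set of `m` of relative density at least `θ` contains a progression of `L` terms with difference
`1 ≤ d ≤ log ^ D X`;

(3) for every colouring of the integers with `C` colours there are `s ∈ {1, 2, 3}` and a progression of `L` terms `m` of one colour in the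
interval, with difference `1 ≤ d ≤ log ^ D X`, such that all `|m ^ 3 + k|` are products of exactly `s` primes, all `> X ^ (3/4)`.

Here `dens k X ≥ c / log ^ 3 X` for all `k`. -/
theorem result : ∀ (L C : ℕ) (δ ε θ : ℝ), 1 ≤ C → 1 / 2 < δ → δ ≤ 1 → 0 < ε → 0 < θ →
    ∃ c : ℝ, 0 < c ∧ ∃ D X₀ : ℕ, ∀ X : ℕ, X₀ ≤ X → (∀ k : ℤ, c / Real.log X ^ 3 ≤ dens k X) ∧
      ∃ E : Finset ℤ, (E.card : ℝ) ≤ (X : ℝ) ^ (4 - 2 * δ + ε) ∧
      ∀ k : ℤ, |k| ≤ (X : ℤ) ^ 3 → k ∉ E → ∀ A H : ℕ, A + H ≤ X → (X : ℝ) ^ δ ≤ H →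
        c * (H * dens k X) ≤ ((good k X A H).card : ℝ) ∧
        (∀ S ⊆ good k X A H, θ * ((good k X A H).card : ℝ) ≤ S.card →
          ∃ m d : ℕ, 1 ≤ d ∧ (d : ℝ) ≤ Real.log X ^ D ∧ ∀ j < L, m + j * d ∈ S) ∧
        (∀ col : ℕ → Fin C, ∃ s : ℕ, 1 ≤ s ∧ s ≤ 3 ∧ ∃ i : Fin C, ∃ m d : ℕ, 1 ≤ d ∧ (d : ℝ) ≤ Real.log X ^ D ∧
          ∀ j < L, m + j * d ∈ good k X A H ∧ bigOmega k (m + j * d) = s ∧ col (m + j * d) = i) := by
  classical
  intro L C δ ε θ hC hδ hδ1 hε hθ
  obtain ⟨c1, hc1, X1, H1⟩ := family δ ε (by linarith) hδ1 hε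
  obtain ⟨cV, hcV, hV⟩ := VZ_low 3 (by norm_num)
  obtain ⟨θ', hθ'⟩ : ∃ θ' : ℝ, θ' = min θ (1 / (4 * C)) := ⟨_, rfl⟩
  have hCr : (1 : ℝ) ≤ C := by exact_mod_cast hC
  have hθ0 : 0 < θ' := by rw [hθ']; positivity
  have hθ1 : θ' ≤ θ := by rw [hθ']; exact min_le_left _ _
  have hθ2 : θ' ≤ 1 / (4 * C) := by rw [hθ']; exact min_le_right _ _
  obtain ⟨D, X2, H2⟩ := ap_dense L 3 (3 / 4) (θ' * c1) (by norm_num) (by norm_num) (by positivity)
  have ev1 : ∀ᶠ X : ℕ in atTop, (X2 : ℝ) + 1 ≤ (X : ℝ) ^ δ :=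
    ((tendsto_rpow_atTop (by linarith)).comp tendsto_natCast_atTop_atTop).eventually_ge_atTop _
  obtain ⟨X3, hX3⟩ := eventually_atTop.1 ev1
  obtain ⟨c, hc⟩ : ∃ c, c = min c1 cV := ⟨_, rfl⟩
  have hc0 : 0 < c := by rw [hc]; positivity
  have hcc1 : c ≤ c1 := by rw [hc]; exact min_le_left _ _
  have hccV : c ≤ cV := by rw [hc]; exact min_le_right _ _
  refine ⟨c, hc0, D, max (max X1 X3) 3, ?_⟩
  intro X hX
  have hXX1 : X1 ≤ X := ((le_max_left _ _).trans (le_max_left _ _)).trans hX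
  have e1 := hX3 X (((le_max_right _ _).trans (le_max_left _ _)).trans hX)
  have hX2 : 3 ≤ X := (le_max_right _ _).trans hX
  have hXr : (3 : ℝ) ≤ X := by exact_mod_cast hX2
  have hX0 : (0 : ℝ) < X := by linarith
  have hlX : 0 < Real.log X := Real.log_pos (by linarith)
  refine ⟨fun k => ?_, ?_⟩
  · rw [dens_eq]
    exact (div_le_div_of_nonneg_right hccV (by positivity)).trans (hV X (by omega) (Zk k) (Zk_sys k))
  obtain ⟨E, hE1, hE2⟩ := H1 X hXX1
  refine ⟨E, hE1, fun k hk hkE A H hAH hH => ?_⟩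
  have g1 := hE2 k hk hkE A H hAH hH
  rw [good_eq]
  have hHX : H ≤ X := by omega
  have hHX' : (H : ℝ) ≤ X := by exact_mod_cast hHX
  have hH2 : X2 ≤ H := by
    have : (X2 : ℝ) ≤ H := by linarith
    exact_mod_cast this
  have hH1 : (1 : ℝ) ≤ H := by
    have : (0 : ℝ) ≤ X2 := Nat.cast_nonneg _
    linarith
  -- dense subsets
  have hdense : ∀ S ⊆ Gd k X A H, θ' * ((Gd k X A H).card : ℝ) ≤ S.card →
      ∃ m d : ℕ, 1 ≤ d ∧ (d : ℝ) ≤ Real.log X ^ D ∧ ∀ j < L, m + j * d ∈ S := by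
    intro S hS hSc
    obtain ⟨m, d, hd1, hd2, hd3⟩ := H2 H hH2 (Zk k) (Zk_sys k) A S (by
      intro n hn
      have := hS hn
      unfold Gd at this
      exact (mem_filter.1 this).1) (by
      intro n hn p hp hpH hmem
      have h1 := hS hn
      unfold Gd at h1
      have h2 := (mem_filter.1 h1).2.2.2 p hp (by
        unfold Zk at hmem
        rw [mem_filter] at hmem
        have h3 : (p ∣ cv k (n % p)) = (p ∣ cv k n) := (cv_periodic k p).map_mod_nat n
        rw [← h3]
        exact hmem.2)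
      have h3 : (H : ℝ) ^ (3 / 4 : ℝ) ≤ (X : ℝ) ^ (3 / 4 : ℝ) := Real.rpow_le_rpow (by linarith) hHX' (by norm_num)
      linarith) (by
      refine le_trans ?_ hSc
      calc θ' * c1 * (H * VV (Zk k) 0 H) = θ' * (c1 * (H * VV (Zk k) 0 H)) := by ring
        _ ≤ _ := mul_le_mul_of_nonneg_left g1 hθ0.le)
    refine ⟨m, d, hd1, hd2.trans ?_, hd3⟩
    exact pow_le_pow_left₀ (Real.log_nonneg hH1) (Real.log_le_log (by linarith) hHX') D
  refine ⟨?_, ?_, ?_⟩
  · refine le_trans ?_ g1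
    rw [dens_eq]
    have h1 : VV (Zk k) 0 X ≤ VV (Zk k) 0 H := by
      rw [← VV_split (Zk k) (Nat.zero_le H) hHX]
      exact mul_le_of_le_one_right (VZ_nonneg (Zk_sys k) _ _) (VZ_le_one (Zk_sys k) _ _)
    have h0 : 0 ≤ VV (Zk k) 0 X := VZ_nonneg (Zk_sys k) _ _
    have h2 : (H : ℝ) * VV (Zk k) 0 X ≤ H * VV (Zk k) 0 H := mul_le_mul_of_nonneg_left h1 (by linarith)
    exact mul_le_mul hcc1 h2 (by positivity) hc1.le
  · intro S hS hSc
    apply hdense S hS
    refine le_trans ?_ hSc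
    exact mul_le_mul_of_nonneg_right hθ1 (Nat.cast_nonneg _)
  · intro col
    obtain ⟨⟨s, i⟩, hK, hcard⟩ := pigeon (Gd k X A H) ((Icc 1 3) ×ˢ (univ : Finset (Fin C)))
      (fun n => (bigOmega k n, col n)) (by
        intro n hn
        unfold Gd at hn
        rw [mem_filter] at hn
        obtain ⟨_, h2, h3, _⟩ := hn
        rw [mem_product, mem_Icc]
        refine ⟨⟨?_, h3⟩, mem_univ _⟩
        show 1 ≤ (cv k n).primeFactorsList.length
        rw [Nat.one_le_iff_ne_zero]
        intro h4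
        rw [List.length_eq_zero_iff] at h4
        rcases (Nat.primeFactorsList_eq_nil (n := cv k n)).1 h4 with h5 | h5 <;> omega)
      (by
        refine ⟨(1, ⟨0, hC⟩), ?_⟩
        rw [mem_product]
        exact ⟨by simp, mem_univ _⟩)
    rw [mem_product, mem_Icc] at hK
    rw [card_product, card_univ, Fintype.card_fin, Nat.card_Icc] at hcard
    obtain ⟨m, d, hd1, hd2, hd3⟩ := hdense _ (filter_subset _ _) (le_trans (by
      apply mul_le_mul_of_nonneg_right _ (Nat.cast_nonneg _)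
      refine hθ2.trans ?_
      apply div_le_div_of_nonneg_left (by norm_num) (by
        push_cast
        positivity)
      push_cast
      linarith) hcard)
    refine ⟨s, hK.1.1, hK.1.2, i, m, d, hd1, hd2, fun j hj => ?_⟩
    have h1 := hd3 j hj
    rw [mem_filter] at h1
    obtain ⟨h2, h3⟩ := h1
    rw [Prod.mk.injEq] at h3
    exact ⟨h2, h3.1, h3.2⟩

end Pool.Agent.Results.MP_4d57ea_nt.NarrowProgressions
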