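import Pool.Agent.Q138.PS.TG

/-!
# Primes `⌊α (m ^ q + k)⌋` in short intervals of arguments `m`

Let `q ≥ 2`. Outside a set of real numbers of Hausdorff dimension at most `q / (q + 1 / (q 2 ^ (q - 1)))`
(that is `36 / 37` for `q = 3`) every `α > 0` has the following property: there are `η, c, C > 0` such that
for all large `X`, for ALL integral polynomials `P` of degree `q` with positive leading coefficient and
coefficients of absolute value at most `X ^ η` (for instance `P = m ^ 3 + k`, `|k| ≤ X ^ η`), and for ALL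
lengths `X ^ (1 - η) ≤ Y ≤ X`, the number of `m` in `(X, X + Y]` for which the integer part of `α P(m)` is
prime lies between `c Y / log X` and `C Y / log X`.
-/

set_option autoImplicit false

open Finset Filter Topology MeasureTheory

namespace Pool.Agent.Results.MP_4d57ea_nt.ShortIntervalsRealMultiples

open Classical in
/-- the number of `m` in `(X, X + Y]` for which the integer part of `α P(m)` is a prime number -/
noncomputable def count (α : ℝ) (P : Polynomial ℤ) (X Y : ℕ) : ℕ :=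
  ((Ioc X (X + Y)).filter fun m : ℕ => (⌊α * ((P.eval (m : ℤ) : ℤ) : ℝ)⌋₊).Prime).card

/-- **All intervals `(X, X + Y]` with `Y ≥ X ^ (1 - η)` contain the expected number, up to constants, of
integers `m` with `⌊α P(m)⌋` prime, uniformly in the polynomial.** -/
theorem result (q : ℕ) (hq : 2 ≤ q) : ∃ E : Set ℝ,
    dimH E ≤ ENNReal.ofReal ((q : ℝ) / (q + 1 / (q * 2 ^ (q - 1)))) ∧ ∀ α : ℝ, 0 < α → α ∉ E →
    ∃ η c C : ℝ, 0 < η ∧ 0 < c ∧ ∀ᶠ X : ℕ in atTop, ∀ P : Polynomial ℤ, P.natDegree = q → 0 < P.leadingCoeff →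
      (∀ j, |((P.coeff j : ℤ) : ℝ)| ≤ (X : ℝ) ^ η) → ∀ Y : ℕ, (X : ℝ) ^ (1 - η) ≤ Y → Y ≤ X →
        c * Y / Real.log X ≤ count α P X Y ∧ (count α P X Y : ℝ) ≤ C * Y / Real.log X := by
  obtain ⟨E, hE, h⟩ := Pool.Agent.Q138.PS.hoh_args q hq
  refine ⟨E, hE, fun α hα hαE => ?_⟩
  obtain ⟨η, c, C, hη, hc, hev⟩ := h α hα hαE
  refine ⟨η, c, C, hη, hc, ?_⟩
  filter_upwards [hev] with X hX
  intro P hdeg hlead hco Y hY1 hY2
  have h1 := hX P hdeg hlead hco Y hY1 hY2
  have h4 : ∀ m : ℕ, (P.map (Int.castRingHom ℝ)).eval (m : ℝ) = ((P.eval (m : ℤ) : ℤ) : ℝ) := by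
    intro m
    have := Polynomial.eval_intCast_map (Int.castRingHom ℝ) P (m : ℤ)
    push_cast at this
    exact this
  simp only [h4] at h1
  have h5 : (((Ioc X (X + Y)).filter fun m : ℕ => (⌊α * ((P.eval (m : ℤ) : ℤ) : ℝ)⌋₊).Prime).card : ℝ) =
      count α P X Y := by
    unfold count
    congr 2
  rw [← h5]
  exact h1

end Pool.Agent.Results.MP_4d57ea_nt.ShortIntervalsRealMultiples
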